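import Pool.Agent.R661.HY.Multi
import Pool.Agent.R661.HY.Dense

/-!
# The Havet-Yu conjecture for dense graphs with bipartite graphs in the complement

Let `H` be a graph with an even number `2 m` of vertices (the types) whose complement contains a
spanning `k`-regular bipartite graph `F`, `k < m`, and let `t` be a homomorphism from `G` to `H` such
that every vertex of `G` has at most `w` neighbours of every type. If `w ≥ 2` or `4 k ≤ m`, then `G`
has, for every `p ≥ 1`, a circular `(p,1)`-total labelling with `(2 m - 1 - k) w + 2 p` labels. If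
`Δ(G) = (2 m - 1 - k) w`, this is the Havet-Yu conjecture for `G`. For `w = 1` and `t = id` this
proves the conjecture for all graphs `G` of even order `n ≥ 8 k` with `Δ(G) = n - 1 - k` whose
complement contains a spanning `k`-regular bipartite graph. The conjecture follows also for all
complete multipartite graphs of even order in which the size of the smallest part divides the sizes
of all the parts.

Proof. If `w ≥ 2`, the types are numbered `U_0, V_0, …, U_{m-1}, V_{m-1}` such that `F` joins the `U`
to the `V` and `U_i V_i` is not in `F` (Hall's theorem). If `w = 1`, a perfect matching of `F` and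
a Hamiltonian cycle in an auxiliary directed graph (found by exchanging two elements of the cyclic
order) give in addition that `U_i V_{i+1}` is in `F`. The types are joined by blocks of `w`
consecutive labels: the edges `U_i U_j` and `V_i V_j`
(`i ≠ j`) and `U_i V_i` (`i = j`) get the block `i + j` if `i + j < m` and the block
`i + j + m - 1 - k` otherwise, and the edges `U_i V_j` with `i ≠ j` get the blocks
`m, …, 2 m - 2 - k` in the way of a proper edge colouring of the bipartite graph of the pairs of
types (König). Inside a block the edges between two types are coloured with `w` colours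
(König). The edges at a vertex of `U_i` or `V_i` get labels in the blocks
`i, …, i + 2 m - 2 - k`, and this leaves, on the circle, two labels at distance `p`, one for `U_i`
and one for `V_i`.
-/

set_option autoImplicit false

namespace Pool.Agent.Results.MP_b8729f_co.BalancedPartitions

open Pool.Agent.R661.HY

/-- `TotalLabeling G p l`: the graph `G` has a `(p,1)`-total labeling of span `l`, that is, labels
`0, …, l` for the vertices (`fV`) and the edges (`fE`) such that adjacent vertices get different
labels, edges sharing an endpoint get different labels, and the labels of a vertex and of an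
incident edge differ by at least `p`. -/
def TotalLabeling {V : Type} (G : SimpleGraph V) (p l : ℕ) : Prop :=
  ∃ (fV : V → ℕ) (fE : Sym2 V → ℕ),
    (∀ v, fV v ≤ l) ∧ (∀ e ∈ G.edgeSet, fE e ≤ l) ∧
    (∀ u v, G.Adj u v → fV u ≠ fV v) ∧
    (∀ u v w, G.Adj u v → G.Adj u w → v ≠ w → fE s(u, v) ≠ fE s(u, w)) ∧
    (∀ u v, G.Adj u v → (p : ℤ) ≤ |(fV u : ℤ) - (fE s(u, v) : ℤ)|)

/-- `CircularLabeling G p N`: a circular `(p,1)`-total labeling of `G` with the `N` labels
`0, …, N - 1` placed around a circle: as above, but the distance of the labels of a vertex and of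
an incident edge, measured around the circle, is at least `p`
(so `p ≤ |fV u - fE uv| ≤ N - p`). -/
def CircularLabeling {V : Type} (G : SimpleGraph V) (p N : ℕ) : Prop :=
  ∃ (fV : V → ℕ) (fE : Sym2 V → ℕ),
    (∀ v, fV v < N) ∧ (∀ e ∈ G.edgeSet, fE e < N) ∧
    (∀ u v, G.Adj u v → fV u ≠ fV v) ∧
    (∀ u v w, G.Adj u v → G.Adj u w → v ≠ w → fE s(u, v) ≠ fE s(u, w)) ∧
    (∀ u v, G.Adj u v → (p : ℤ) ≤ |(fV u : ℤ) - (fE s(u, v) : ℤ)| ∧
      |(fV u : ℤ) - (fE s(u, v) : ℤ)| ≤ (N : ℤ) - p)

theorem circ_lin {V : Type} {G : SimpleGraph V} {p N : ℕ} (h : CircularLabeling G p N) :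
    TotalLabeling G p (N - 1) := by
  obtain ⟨fV, fE, h1, h2, h3, h4, h5⟩ := h
  exact ⟨fV, fE, fun v => Nat.le_sub_one_of_lt (h1 v), fun e he => Nat.le_sub_one_of_lt (h2 e he),
    h3, h4, fun u v huv => (h5 u v huv).1⟩

/-- (1) Let `F` be a `k`-regular bipartite graph on the set `T` of types, `|T| = 2 m`, `k < m`, and
let `t` give types to the vertices of `G` such that adjacent vertices of `G` have different types that
are not adjacent in `F` and every vertex has at most `w ≥ 1` neighbours of every type. If `w ≥ 2` or
`4 k ≤ m` then `G` has, for every `p ≥ 1`, a circular `(p,1)`-total labelling with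
`(2 m - 1 - k) w + 2 p` labels, and if its maximum degree `Δ` is `(2 m - 1 - k) w` then it has a
`(p,1)`-total labelling of span `Δ + 2 p - 1`.

(2) Every complete multipartite graph `G` with an even number of vertices in which the size `s` of
some part divides the sizes of all parts (`c v` is the part of `v`) has, for every `p ≥ 1`, a
circular `(p,1)`-total labelling with `Δ + 2 p` labels and a `(p,1)`-total labelling of span
`Δ + 2 p - 1`. -/
theorem result :
    (∀ (V T : Type) [Fintype V] [Fintype T] (G : SimpleGraph V) [DecidableRel G.Adj]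
      (F : SimpleGraph T) (m w k p : ℕ) (t : V → T),
      1 ≤ w → 1 ≤ p → k < m → Fintype.card T = 2 * m → F.Colorable 2 →
      (∀ x, {y | F.Adj x y}.ncard = k) → (2 ≤ w ∨ 4 * k ≤ m) →
      (∀ u v, G.Adj u v → t u ≠ t v ∧ ¬ F.Adj (t u) (t v)) →
      (∀ v y, {u | G.Adj v u ∧ t u = y}.ncard ≤ w) →
      CircularLabeling G p ((2 * m - 1 - k) * w + 2 * p) ∧
        (G.maxDegree = (2 * m - 1 - k) * w → TotalLabeling G p (G.maxDegree + 2 * p - 1))) ∧
    (∀ (V : Type) [Fintype V] (G : SimpleGraph V) [DecidableRel G.Adj] (c : V → ℕ) (s p : ℕ),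
      1 ≤ p → (∀ u v, G.Adj u v ↔ c u ≠ c v) → (∃ v, {u | c u = c v}.ncard = s) →
      (∀ v, s ∣ {u | c u = c v}.ncard) → Even (Fintype.card V) →
      CircularLabeling G p (G.maxDegree + 2 * p) ∧
        TotalLabeling G p (G.maxDegree + 2 * p - 1)) := by
  constructor
  · intro V T _ _ G _ F m w k p t hw1 hp hkm hT hcol hF hcond hG hw
    have hmain : CircularLabeling G p ((2 * m - 1 - k) * w + 2 * p) := by
      rcases Nat.eq_zero_or_pos k with hk | hk
      · subst hk
        exact noforb G m w p t hp hw1 hkm hT (fun x y h => (hG x y h).1) hw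
      · obtain ⟨C⟩ := hcol
        refine regular G F (fun x => decide (C x = 0)) m w k p t hp hw1 hk hkm hT hF ?_ hcond hG hw
        intro x y hxy h
        have h1 := C.valid hxy
        have h2 : (C x = 0) ↔ (C y = 0) := by simpa using h
        have h3 : ∀ a b : Fin 2, (a = 0 ↔ b = 0) → a = b := by decide
        exact h1 (h3 _ _ h2)
    refine ⟨hmain, fun hD => ?_⟩
    have h4 := circ_lin hmain
    rwa [← hD] at h4
  · intro V _ G _ c s p hp hadj hs hdiv heven
    obtain ⟨v0, hv0⟩ := hs
    have hs1 : 1 ≤ s := by
      rw [← hv0]
      exact (Set.ncard_pos (Set.toFinite _)).2 ⟨v0, rfl⟩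
    have hdeg : ∀ v, G.degree v + {u | c u = c v}.ncard = Fintype.card V := by
      intro v
      have e1 : (G.neighborFinset v : Set V) = {u | c u = c v}ᶜ := by
        ext u
        rw [Finset.mem_coe, SimpleGraph.mem_neighborFinset, hadj]
        exact ⟨fun h h' => h h'.symm, fun h h' => h h'.symm⟩
      rw [← SimpleGraph.card_neighborFinset_eq_degree, ← Set.ncard_coe_finset, e1, Nat.add_comm,
        Set.ncard_add_ncard_compl, Nat.card_eq_fintype_card]
    have hmax : G.maxDegree = Fintype.card V - s := by
      apply le_antisymm
      · refine G.maxDegree_le_of_forall_degree_le _ fun v => ?_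
        have h1 := hdeg v
        have h2 : 0 < {u | c u = c v}.ncard := (Set.ncard_pos (Set.toFinite _)).2 ⟨v, rfl⟩
        have h3 := Nat.le_of_dvd h2 (hdiv v)
        omega
      · have h1 := hdeg v0
        have h2 := G.degree_le_maxDegree v0
        omega
    have hmain : CircularLabeling G p (G.maxDegree + 2 * p) := by
      rw [hmax]
      exact multi G c s p hp hs1 (fun u v h => (hadj u v).1 h) hdiv heven
    exact ⟨hmain, circ_lin hmain⟩

end Pool.Agent.Results.MP_b8729f_co.BalancedPartitions
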