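import Mathlib
import Pool.Agent.R143.HYF.Clique

set_option autoImplicit false

/-!
# The Havet-Yu conjecture for graphs of small clique number

For graphs without a clique of size `r + 2` (clique number at most `r + 1`) and maximum degree at
most `D` the conjecture holds for `p ≥ (1/2 + ε) r D log log D / log D`, for all large `D` and
uniformly in `r`, as long as `400 r log log D ≤ log D`.

Proof.  Local occupancy: in a graph without `(r + 1)`-cliques with vertex weights at most `1` and
total weight `y ^ r` the independence polynomial is at least `exp (y / 8)` (induction on `r`), and by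
Jensen's inequality the mean size of a random independent set is at least `(log Z - 1) / log Λ`.
So the counting theorem for list colourings gives `(1 + ε) r D log log D / log D` colours.  The
vertices are then distributed at random into types as in the triangle-free case.
-/

namespace Pool.Agent.Results.MP_b8729f_co.CliqueNumber

/-- `TotalLabeling G p l`: the graph `G` has a `(p,1)`-total labeling of span `l`, that is, labels
`0, …, l` for the vertices (`fV`) and the edges (`fE`) such that adjacent vertices get different
labels, edges sharing an endpoint get different labels, and the labels of a vertex and of an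
incident edge differ by at least `p`. -/
def TotalLabeling {V : Type} (G : SimpleGraph V) (p l : ℕ) : Prop :=
  ∃ (fV : V → ℕ) (fE : Sym2 V → ℕ),
    (∀ v, fV v ≤ l) ∧ (∀ e ∈ G.edgeSet, fE e ≤ l) ∧
    (∀ u v, G.Adj u v → fV u ≠ fV v) ∧
    (∀ u v w, G.Adj u v → G.Adj u w → v ≠ w → fE s(u, v) ≠ fE s(u, w)) ∧
    (∀ u v, G.Adj u v → (p : ℤ) ≤ |(fV u : ℤ) - (fE s(u, v) : ℤ)|)

/-- For every `ε > 0` there is `D₀` such that for all `D ≥ D₀`, all `r ≥ 1` with
`400 r log log D ≤ log D` and all `p ≥ (1/2 + ε) r D log log D / log D`, every finite graph without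
a clique of size `r + 2` and with all degrees at most `D` has a `(p,1)`-total labeling of span
`D + 2 p - 1`. -/
theorem result (ε : ℝ) (hε : 0 < ε) : ∃ D₀ : ℕ, ∀ (V : Type) [Fintype V]
    (G : SimpleGraph V) (D p r : ℕ), D₀ ≤ D → 1 ≤ r →
    400 * (r * Real.log (Real.log D)) ≤ Real.log D →
    (∀ v, (G.neighborSet v).ncard ≤ D) → G.CliqueFree (r + 2) →
    (1 / 2 + ε) * r * (D * Real.log (Real.log D) / Real.log D) ≤ p →
    TotalLabeling G p (D + 2 * p - 1) := by
  classical
  obtain ⟨D₀, h⟩ := Pool.Agent.R143.HYF.clique_main ε hε
  refine ⟨D₀, ?_⟩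
  intro V _ G D p r h1 h2 h3 h4 h5 h6
  refine h V G D p r h1 h2 h3 ?_ h5 h6
  intro v
  have := h4 v
  rwa [Set.ncard_eq_toFinset_card', ← SimpleGraph.neighborFinset_def,
    SimpleGraph.card_neighborFinset_eq_degree] at this

end Pool.Agent.Results.MP_b8729f_co.CliqueNumber
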