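import Mathlib
import Pool.Agent.R143.HYF.Sparse

set_option autoImplicit false

/-!
# The Havet-Yu conjecture for graphs with few triangles at every vertex

If all neighbourhoods of a graph of maximum degree at most `D` contain at most `D ^ 2 / f` ordered
pairs of adjacent vertices, where `(log D) ^ A ≤ f ≤ D ^ 2`, then the conjecture holds for
`p ≥ (1 + ε) D / log f`.

Proof.  Local occupancy for sets with few edges and vertex weights at most `√f / (D f ^ e)` and the
counting theorem for list colourings give `(2 + ε) Δ / log f` colours for graphs of maximum degree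
`Δ`.  The vertices are distributed at random into `O(log D)` types; the graph inside a type has
maximum degree about `Δ = D / (2 m)` and neighbourhoods with at most
`D ^ 2 / f ≤ Δ ^ 2 (log D) ^ 4 / f` pairs.
-/

namespace Pool.Agent.Results.MP_b8729f_co.FewTriangles

/-- `TotalLabeling G p l`: the graph `G` has a `(p,1)`-total labeling of span `l`, that is, labels
`0, …, l` for the vertices (`fV`) and the edges (`fE`) such that adjacent vertices get different
labels, edges sharing an endpoint get different labels, and the labels of a vertex and of an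
incident edge differ by at least `p`. -/
def TotalLabeling {V : Type} (G : SimpleGraph V) (p l : ℕ) : Prop :=
  ∃ (fV : V → ℕ) (fE : Sym2 V → ℕ),
    (∀ v, fV v ≤ l) ∧ (∀ e ∈ G.edgeSet, fE e ≤ l) ∧
    (∀ u v, G.Adj u v → fV u ≠ fV v) ∧
    (∀ u v w, G.Adj u v → G.Adj u w → v ≠ w → fE s(u, v) ≠ fE s(u, w)) ∧
    (∀ u v, G.Adj u v → (p : ℤ) ≤ |(fV u : ℤ) - (fE s(u, v) : ℤ)|)

/-- For every `ε > 0` there are `A` and `D₀` such that for all `D ≥ D₀`, all real `f` with
`(log D) ^ A ≤ f ≤ D ^ 2` and all `p ≥ (1 + ε) D / log f`, every finite graph with all degrees at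
most `D` in which every neighbourhood contains at most `D ^ 2 / f` ordered pairs of adjacent
vertices has a `(p,1)`-total labeling of span `D + 2 p - 1`. -/
theorem result (ε : ℝ) (hε : 0 < ε) : ∃ A D₀ : ℕ, ∀ (V : Type) [Fintype V]
    (G : SimpleGraph V) (D p : ℕ) (f : ℝ), D₀ ≤ D → Real.log D ^ A ≤ f → f ≤ (D : ℝ) ^ 2 →
    (∀ v, (G.neighborSet v).ncard ≤ D) →
    (∀ v, ({a : V × V | G.Adj v a.1 ∧ G.Adj v a.2 ∧ G.Adj a.1 a.2}.ncard : ℝ) ≤
      (D : ℝ) ^ 2 / f) →
    (1 + ε) * (D / Real.log f) ≤ p →
    TotalLabeling G p (D + 2 * p - 1) := by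
  classical
  obtain ⟨A, D₀, h⟩ := Pool.Agent.R143.HYF.sparse_main ε hε
  refine ⟨A, D₀, ?_⟩
  intro V _ G D p f h1 h2 h3 h4 h5 h6
  refine h V G D p f h1 h2 h3 ?_ h5 h6
  intro v
  have := h4 v
  rwa [Set.ncard_eq_toFinset_card', ← SimpleGraph.neighborFinset_def,
    SimpleGraph.card_neighborFinset_eq_degree] at this

end Pool.Agent.Results.MP_b8729f_co.FewTriangles
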