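import Mathlib
import Pool.Agent.R143.HYF.Main
import Pool.Agent.Y388.CF.Transversal

set_option autoImplicit false

/-!
# The Havet-Yu conjecture for `F`-free graphs and `p ≥ (c(F) / 2 + ε) D / log D`

The vertices are distributed at random into `2 m` types with `m` of order `log D`, each type is an
`F`-free graph of maximum degree about `D / (2 m)` and is coloured with
`(c(F) + o(1)) (D / (2 m)) / log D` colours, and the edges between two given types get labels in an
interval placed by a modified Latin square (structure theorem `structB` of the starting modules).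
-/

namespace Pool.Agent.Results.MP_b8729f_co.ForbiddenSubgraph

open Classical Pool.Agent.TH855
open scoped ENNReal

/-- `TotalLabeling G p l`: the graph `G` has a `(p,1)`-total labeling of span `l`, that is, labels
`0, …, l` for the vertices (`fV`) and the edges (`fE`) such that adjacent vertices get different
labels, edges sharing an endpoint get different labels, and the labels of a vertex and of an
incident edge differ by at least `p`. -/
def TotalLabeling {V : Type} (G : SimpleGraph V) (p l : ℕ) : Prop :=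
  ∃ (fV : V → ℕ) (fE : Sym2 V → ℕ),
    (∀ v, fV v ≤ l) ∧ (∀ e ∈ G.edgeSet, fE e ≤ l) ∧
    (∀ u v, G.Adj u v → fV u ≠ fV v) ∧
    (∀ u v w, G.Adj u v → G.Adj u w → v ≠ w → fE s(u, v) ≠ fE s(u, w)) ∧
    (∀ u v, G.Adj u v → (p : ℤ) ≤ |(fV u : ℤ) - (fE s(u, v) : ℤ)|)

/-- `HavetYu F a`: for every `ε > 0` there is `D₀` such that for all `D ≥ D₀` and all
`p ≥ (a + ε) D / log D`, every finite `F`-free graph with all degrees at most `D` has a
`(p,1)`-total labeling of span `D + 2 p - 1`. -/
def HavetYu {W : Type} (F : SimpleGraph W) (a : ℝ) : Prop :=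
  ∀ ε : ℝ, 0 < ε → ∃ D₀ : ℕ, ∀ (V : Type) [Fintype V]
    (G : SimpleGraph V) (D p : ℕ), D₀ ≤ D → (∀ v, (G.neighborSet v).ncard ≤ D) →
    F.Free G → (a + ε) * (D / Real.log D) ≤ p → TotalLabeling G p (D + 2 * p - 1)

/-- `F` is almost bipartite: it is bipartite, or it becomes bipartite on deleting one vertex. -/
def NearBipartite {W : Type} (F : SimpleGraph W) : Prop :=
  F.Colorable 2 ∨ ∃ x, (F.induce {y | y ≠ x}).Colorable 2

/-- `Glued F k P`: the vertices and the edges of `F` are covered by finitely many sets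
`B 0, …, B (m - 1)` of vertices (the pieces), each with the property `P`, such that every piece
`B i` with `i > 0` meets the union of the earlier pieces inside one earlier piece `B j`, and either
is contained in `B j` or has at most `k` vertices in common with it. -/
def Glued {W : Type} (F : SimpleGraph W) (k : ℕ) (P : Set W → Prop) : Prop :=
  ∃ (m : ℕ) (B : ℕ → Set W), (∀ w, ∃ i < m, w ∈ B i) ∧
    (∀ a b, F.Adj a b → ∃ i < m, a ∈ B i ∧ b ∈ B i) ∧ (∀ i < m, P (B i)) ∧
    ∀ i < m, 0 < i → ∃ j < i, (∀ l < i, B i ∩ B l ⊆ B j) ∧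
      (B i ⊆ B j ∨ (B i ∩ B j).ncard ≤ k)

theorem general {W : Type} (F : SimpleGraph W) (C : ℝ) (hC : 0 ≤ C)
    (h : c F ≤ ENNReal.ofReal C) : HavetYu F (C / 2) := by
  intro ε hε
  obtain ⟨D₀, h⟩ := Pool.Agent.R143.HYF.ff_main F C hC ((upTo_of_c_le F C hC h).gb hC) ε hε
  refine ⟨D₀, ?_⟩
  intro V _ G D p h1 h2 h3 h4
  refine h V G D p h1 ?_ h3 h4
  intro v
  have := h2 v
  rwa [Set.ncard_eq_toFinset_card', ← SimpleGraph.neighborFinset_def,
    SimpleGraph.card_neighborFinset_eq_degree] at this

/-- (1) `F` almost bipartite: constant `1/2`. (2) `F` of treewidth at most `2`: constant `1`.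
(3) `F` a tree-like gluing, along sets of at most `k` vertices, of almost bipartite pieces with
independent apices: constant `k / 2 + 1`. (4) every `F` with `c(F) ≤ C`: constant `C / 2`. -/
theorem result {W : Type} [Fintype W] (F : SimpleGraph W) :
    (NearBipartite F → HavetYu F (1 / 2)) ∧
    (TreewidthLe F 2 → HavetYu F 1) ∧
    (∀ (X : Set W) (k : ℕ), (∀ a ∈ X, ∀ b ∈ X, ¬ F.Adj a b) → (F.induce Xᶜ).Colorable 2 →
      Glued F k (fun B => (B ∩ X).Subsingleton) → HavetYu F (k / 2 + 1)) ∧
    (∀ C : ℝ, 0 ≤ C → c F ≤ ENNReal.ofReal C → HavetYu F (C / 2)) := by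
  refine ⟨?_, ?_, ?_, fun C hC h => general F C hC h⟩
  · intro h
    refine general F 1 zero_le_one ?_
    rw [ENNReal.ofReal_one]
    exact Pool.Agent.Y388.CF.c_almost_bipartite F h
  · intro h
    have h1 := treewidth_bound F 2 (by omega) h
    have h2 : c F ≤ ENNReal.ofReal 2 := by
      refine h1.trans ?_
      calc ((2 : ℕ) : ℝ≥0∞) * c (⊤ : SimpleGraph (Fin (2 + 1))) ≤ (2 : ℕ) * 1 :=
            mul_le_mul_right c_triangle_le_one _
        _ = ENNReal.ofReal 2 := by norm_num
    have h3 := general F 2 (by norm_num) h2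
    norm_num at h3
    exact h3
  · intro X k hX hb hF
    obtain ⟨m, B, h1, h2, h3, h4⟩ := hF
    have h5 := Pool.Agent.Y388.CF.separated F X k (fun a b ha hb => hX a ha b hb) hb m B
      h1 h2 h3 h4
    have h6 : c F ≤ ENNReal.ofReal ((k : ℝ) + 2) := by
      refine h5.trans (le_of_eq ?_)
      rw [ENNReal.ofReal_add (by positivity) (by norm_num), ENNReal.ofReal_natCast]
      norm_num
    have h7 := general F ((k : ℝ) + 2) (by positivity) h6
    have h8 : ((k : ℝ) + 2) / 2 = k / 2 + 1 := by ring
    rw [h8] at h7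
    exact h7

end Pool.Agent.Results.MP_b8729f_co.ForbiddenSubgraph
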